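import Pool.Agent.J4H25.NPK.Fb

set_option autoImplicit false

/-!
# Procedures with few computations fail
-/

namespace Pool.Agent.J4H25.NPF

open MeasureTheory Filter Pool.Agent.NPC Pool.Agent.H628R3.RO Pool.Agent.J4H63.ESY Pool.Agent.J4H45.OPT
open Pool.Agent.J4H45.EXP (T wds T_strictMono le_T T_pos two_pow_T_le two_pow_T_lt mem_wds card_wds T_succ)
open Pool.Agent.J4H25.NPP Pool.Agent.J4H25.NPB Pool.Agent.J4H25.NPK
open Pool.Agent.J4H81.NPP (size_le touched hit_plant off_plant)
open Pool.Agent.J4H98.NPP (mem_congr)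

/-- The answers which the procedure `r` gets on the input `x` with at most `b` questions (`runQ`), if
the questions are answered by `S`; they determine the computation. -/
def ansL (r : List Bool → List Bool) (S : List Bool → Bool) (x : List Bool) :
    ℕ → List Bool → List Bool
  | 0, a => a
  | j + 1, a => if (r (pairBits x a)).head? = some false then
      ansL r S x j (a ++ [S (r (pairBits x a)).tail]) else a

theorem prefix_ansL (r : List Bool → List Bool) (S : List Bool → Bool) (x : List Bool) :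
    ∀ (j : ℕ) (a : List Bool), a <+: ansL r S x j a ∧ (ansL r S x j a).length ≤ a.length + j := by
  intro j
  induction j with
  | zero => exact fun a => ⟨List.prefix_rfl, by rw [ansL]; omega⟩
  | succ j ih =>
    intro a
    rw [ansL]
    split_ifs with h1
    · obtain ⟨h2, h3⟩ := ih (a ++ [S (r (pairBits x a)).tail])
      refine ⟨(List.prefix_append a _).trans h2, h3.trans ?_⟩
      rw [List.length_append, List.length_singleton]
      omega
    · exact ⟨List.prefix_rfl, by omega⟩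

/-- `a` is a history of the procedure `r` with answers from `S`, and all questions so far are in
`P`. -/
def PH (r : List Bool → List Bool) (S : List Bool → Bool) (P : List Bool → Prop) (x a : List Bool) :
    Prop :=
  ∀ j < a.length, (r (pairBits x (a.take j))).head? = some false ∧
    P (r (pairBits x (a.take j))).tail ∧ a[j]? = some (S (r (pairBits x (a.take j))).tail)

theorem PH.nil (r : List Bool → List Bool) (S : List Bool → Bool) (P : List Bool → Prop)
    (x : List Bool) : PH r S P x [] := fun j hj => absurd hj (Nat.not_lt_zero j)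

theorem PH.snoc {r : List Bool → List Bool} {S : List Bool → Bool} {P : List Bool → Prop}
    {x a : List Bool} (h : PH r S P x a) (h1 : (r (pairBits x a)).head? = some false)
    (h2 : P (r (pairBits x a)).tail) : PH r S P x (a ++ [S (r (pairBits x a)).tail]) := by
  intro j hj
  rw [List.length_append, List.length_singleton] at hj
  rcases Nat.lt_succ_iff_lt_or_eq.1 hj with h3 | h3
  · rw [List.take_append_of_le_length h3.le, List.getElem?_append_left h3]
    exact h j h3
  · subst h3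
    rw [List.take_left, List.getElem?_append_right le_rfl, Nat.sub_self]
    exact ⟨h1, h2, rfl⟩

theorem PH.change {r : List Bool → List Bool} {S S' : List Bool → Bool}
    {P P' : List Bool → Prop} {x a : List Bool} (hP : ∀ q, P q → P' q)
    (hS : ∀ q, P q → S' q = S q) (h : PH r S P x a) : PH r S' P' x a := by
  intro j hj
  obtain ⟨h1, h2, h3⟩ := h j hj
  exact ⟨h1, hP _ h2, by rw [hS _ h2]; exact h3⟩

/-- a history is a beginning of the list of the answers -/
theorem PH.beg {r : List Bool → List Bool} {S : List Bool → Bool} {P : List Bool → Prop}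
    {x a : List Bool} (h : PH r S P x a) {b : ℕ} (hb : a.length ≤ b) :
    a <+: ansL r S x b [] := by
  have key : ∀ m ≤ a.length, ansL r S x b [] = ansL r S x (b - m) (a.take m) := by
    intro m
    induction m with
    | zero => intro _; simp
    | succ m ih =>
      intro hm
      obtain ⟨h1, -, h3⟩ := h m (by omega)
      rw [ih (by omega)]
      obtain ⟨t, ht⟩ : ∃ t, b - m = t + 1 := ⟨b - m - 1, by omega⟩
      have ht' : b - (m + 1) = t := by omega
      rw [ht, ht', ansL, if_pos h1, List.take_add_one, h3]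
      rfl
  rw [key a.length le_rfl, List.take_length]
  exact (prefix_ansL r S x _ a).1

theorem PH.congr {r r' : List Bool → List Bool} {S : List Bool → Bool}
    {P P' : List Bool → Prop} {x a : List Bool} {B : ℕ} (ha : a.length ≤ B)
    (hr : ∀ a : List Bool, a.length ≤ B → r' (pairBits x a) = r (pairBits x a))
    (hP : ∀ a : List Bool, a.length ≤ B → P (r (pairBits x a)).tail → P' (r (pairBits x a)).tail)
    (h : PH r S P x a) : PH r' S P' x a := by
  intro j hj
  obtain ⟨h1, h2, h3⟩ := h j hj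
  have h4 : (a.take j).length ≤ B := by
    rw [List.length_take]
    omega
  rw [hr _ h4]
  exact ⟨h1, hP _ h4 h2, h3⟩

/-- a run along which an invariant holds -/
theorem runP_of_inv {r r' : List Bool → List Bool} {S : List Bool → Bool}
    {P' : List Bool → Prop} {x : List Bool} {d : Bool} {B : ℕ} {I : List Bool → Prop}
    (h1 : ∀ a, I a → r' (pairBits x a) = r (pairBits x a))
    (h2 : ∀ a, I a → P' (r (pairBits x a)).tail)
    (h3 : ∀ a, I a → a.length < B → (r (pairBits x a)).head? = some false →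
      I (a ++ [S (r (pairBits x a)).tail])) :
    ∀ {j : ℕ} {a : List Bool}, a.length + j ≤ B → I a → RunP r S (fun _ => True) x d j a →
      RunP r' S P' x d j a := by
  intro j
  induction j with
  | zero =>
    intro a ha hI h
    rw [RunP] at h ⊢
    rw [h1 a hI]
    exact h
  | succ j ih =>
    intro a ha hI h
    rw [RunP] at h ⊢
    rw [h1 a hI]
    by_cases h4 : (r (pairBits x a)).head? = some false
    · rw [if_pos h4] at h ⊢
      refine ⟨h2 a hI, ih ?_ (h3 a hI (by omega) h4) h.2⟩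
      rw [List.length_append, List.length_singleton]
      omega
    · rw [if_neg h4] at h ⊢
      exact h

section

variable (O : Oracle → Oracle) (M : ℕ → Alg) (p : ℕ → Polynomial ℕ) (h : ℕ) (P Q : Polynomial ℕ)

open Classical in
/-- the histories of the procedure at stage `i`, for all allowed answers -/
noncomputable def HistF (L : ℕ) (σ : Finset (List Bool)) (MF : Alg) (i : ℕ) (A : Oracle) :
    Finset (List Bool) :=
  (strs (Q.eval (rt h i))).toFinset.filter (fun a => ∃ S : List Bool → Bool,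
    PH (rF MF (O A)) S (fun q => Alw O M p L σ A q (S q)) (List.replicate (rt h i) false) a)

/-- the procedure has many histories -/
def Mny (L : ℕ) (σ : Finset (List Bool)) (MF : Alg) (i : ℕ) : Set Oracle :=
  {A | (Q.eval (rt h i) + 1) * 2 ^ P.eval (rt h i) < (HistF O M p h Q L σ MF i A).card}

/-- the procedure fails, or it has many histories -/
def FlF (L : ℕ) (σ : Finset (List Bool)) (MF : Alg) (i l : ℕ) : Set Oracle :=
  FlK O M p h Q L σ MF i l ∪ Mny O M p h P Q L σ MF i

end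

section

variable {O : Oracle → Oracle} (E : Emb2 O) {M : ℕ → Alg} {p : ℕ → Polynomial ℕ} {K i0 : ℕ}
  (ok : Ok3 M p K i0) (h : ℕ) (P Q : Polynomial ℕ)

include E ok in
theorem loc_Mny (L : ℕ) (σ : Finset (List Bool)) (MF : Alg) : ∃ i1 ≥ i0, ∀ i ≥ i1,
    Loc {x | x.length ≤ 2 ^ T i} (Mny O M p h P Q L σ MF i) := by
  classical
  obtain ⟨qb, hq⟩ := MF.out_congr
  obtain ⟨u', hu'⟩ := bd_rt h Q qb
  obtain ⟨N1, h1⟩ := eventually_atTop.1 (H529R3.Lev.poly_le_two_pow u')
  obtain ⟨N2, h2⟩ := size_rK h Q K MF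
  refine ⟨i0 + N1 + N2 + h + 1, by omega, fun i hi => ?_⟩
  have key : ∀ A A' : Oracle, (∀ x : List Bool, x.length ≤ 2 ^ T i → A x = A' x) →
      HistF O M p h Q L σ MF i A ⊆ HistF O M p h Q L σ MF i A' := by
    intro A A' hA a ha
    unfold HistF at ha ⊢
    rw [Finset.mem_filter, List.mem_toFinset, mem_strs] at ha ⊢
    obtain ⟨hab, S, hS⟩ := ha
    refine ⟨hab, S, PH.congr (B := Q.eval (rt h i)) hab ?_ ?_ hS⟩
    · intro a ha
      unfold rF
      have h3 := le_T i
      have h4 : u'.eval (T i) ≤ 2 ^ T i := h1 (T i) (by omega)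
      have e1 : MF.out (O A') (pairBits (List.replicate (rt h i) false) a) =
          MF.out (O A) (pairBits (List.replicate (rt h i) false) a) := by
        refine hq (O A') (O A) _ (2 * rt h i + 1 + a.length)
          (by rw [length_pairBits_A3, List.length_replicate]) fun x hx => ?_
        have h5 := hu' i a.length (by omega) ha
        exact (E.loc x A A' (hA _ ((E.len x).trans (hx.trans (h5.trans h4))))).symm
      rw [e1]
    · intro a ha hP
      have h3 := h2 i (by omega) (O A) a ha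
      refine ⟨hP.1, fun hL => ?_⟩
      have hA' : ∀ x : List Bool, x.length ≤ 2 ^ T i → A x = A' x := hA
      rw [← mem_congr E ok.ok2.ok (by omega) h3 (by norm_num : 0 < 2) hA',
        ← mem_congr E ok.ok2.ok (by omega) h3 (by norm_num : 1 < 2) hA']
      exact hP.2 hL
  intro A A' hA
  have h3 : HistF O M p h Q L σ MF i A = HistF O M p h Q L σ MF i A' :=
    Finset.Subset.antisymm (key A A' hA) (key A' A fun x hx => (hA x hx).symm)
  unfold Mny
  simp only [Set.mem_ofPred_eq]
  rw [h3]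

include E ok in
theorem plant_FlF (hP : P.natDegree < 2 ^ h) (L : ℕ) (σ : Finset (List Bool)) (MF : Alg) :
    ∃ i1 ≥ i0, ∀ i ≥ i1, ∀ l, ∀ A ∉ Cap3 O M p K i l, A ∉ Mny O M p h P Q L σ MF i →
    ∃ c < 2, ∃ I' ⊆ wds (T i), 2 ^ T i ≤ 4 * I'.card ∧
      ∀ w ∈ I', plant (spots (T i + bx 3 l) (c, w)) A ∈ FlK O M p h Q L σ MF i l := by
  classical
  obtain ⟨N1, h1⟩ := size_rK h Q K MF
  obtain ⟨N3, h3⟩ := eval_le_of_deg P hP
  obtain ⟨u', hu'⟩ := bd_rt h Q ((Polynomial.C 16 * MF.p) ^ 2)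
  obtain ⟨N2, h2⟩ := Filter.eventually_atTop.1 (_root_.H529R3.Lev.poly_le_two_pow u')
  obtain ⟨N4, h4⟩ := Filter.eventually_atTop.1 (_root_.H529R3.Lev.poly_le_two_pow
    ((Q + Polynomial.C 1) ^ 8))
  refine ⟨i0 + N1 + N2 + N3 + N4 + h + 1, by omega, fun i hi l A hA hAM => ?_⟩
  have hTi := le_T i
  obtain ⟨b, hb⟩ : ∃ b, b = Q.eval (rt h i) := ⟨_, rfl⟩
  obtain ⟨t, ht⟩ : ∃ t, t = P.eval (rt h i) := ⟨_, rfl⟩
  have ht8 : 8 * t + 8 ≤ T i := by rw [ht]; exact h3 i (by omega)
  have hb8 : (b + 1) ^ 8 ≤ 2 ^ T i := by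
    have g1 := h4 (T i) (by omega)
    rw [Polynomial.eval_pow, Polynomial.eval_add, Polynomial.eval_C] at g1
    have g2 : b + 1 ≤ Q.eval (T i) + 1 := by
      have := poly_mono Q (rt_le (h := h) (i := i) (by omega))
      omega
    exact (Nat.pow_le_pow_left g2 8).trans g1
  obtain ⟨x, hx⟩ : ∃ x, x = List.replicate (rt h i) false := ⟨_, rfl⟩
  obtain ⟨H, hH⟩ : ∃ H, H = HistF O M p h Q L σ MF i A := ⟨_, rfl⟩
  have hHc : H.card ≤ (b + 1) * 2 ^ t := by
    have : ¬ ((Q.eval (rt h i) + 1) * 2 ^ P.eval (rt h i) <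
      (HistF O M p h Q L σ MF i A).card) := hAM
    rw [hH, hb, ht]
    omega
  have hHb : ∀ a ∈ H, a.length ≤ b := by
    intro a ha
    rw [hH] at ha
    unfold HistF at ha
    rw [Finset.mem_filter, List.mem_toFinset, mem_strs, ← hb] at ha
    exact ha.1
  have hHq : H.card ≤ qn i := by
    have g1 : (b + 1) ^ 4 * 2 ^ (4 * t + 3) ≤ 2 ^ T i := by
      refine (Nat.pow_le_pow_iff_left (n := 2) (by norm_num)).1 ?_
      calc ((b + 1) ^ 4 * 2 ^ (4 * t + 3)) ^ 2 = (b + 1) ^ 8 * 2 ^ (8 * t + 6) := by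
            rw [mul_pow, ← pow_mul, ← pow_mul]
            congr 2
            ring
        _ ≤ 2 ^ T i * 2 ^ T i :=
            Nat.mul_le_mul hb8 (Nat.pow_le_pow_right (by norm_num) (by omega))
        _ = (2 ^ T i) ^ 2 := by ring
    have g2 : ((b + 1) * 2 ^ t) ^ 4 * 8 ≤ (2 ^ (T i / 4)) ^ 4 * 8 := by
      calc ((b + 1) * 2 ^ t) ^ 4 * 8 = (b + 1) ^ 4 * 2 ^ (4 * t + 3) := by
            rw [mul_pow, ← pow_mul, pow_add, mul_comm t 4]
            ring
        _ ≤ 2 ^ T i := g1
        _ ≤ 2 ^ (T i / 4 * 4 + 3) := Nat.pow_le_pow_right (by norm_num) (by omega)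
        _ = (2 ^ (T i / 4)) ^ 4 * 8 := by rw [pow_add, pow_mul]; norm_num
    have g3 : (b + 1) * 2 ^ t ≤ 2 ^ (T i / 4) :=
      (Nat.pow_le_pow_iff_left (by norm_num)).1 (Nat.le_of_mul_le_mul_right g2 (by norm_num))
    exact hHc.trans g3
  obtain ⟨Qs, hQ⟩ : ∃ Qs : ℕ → List Bool, ∀ j, Qs j =
      (rF MF (O A) (pairBits x (H.toList.getD j []))).tail := ⟨_, fun _ => rfl⟩
  have hgetD : ∀ j, (H.toList.getD j []).length ≤ b := by
    intro j
    by_cases hj : j < H.toList.length
    · rw [List.getD_eq_getElem _ _ hj]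
      exact hHb _ (Finset.mem_toList.1 (List.getElem_mem hj))
    · rw [List.getD_eq_default _ _ (by omega)]
      exact Nat.zero_le _
  have hQs : ∀ j, K * (Qs j).length.size ≤ T i := by
    intro j
    rw [hQ, hx]
    exact h1 i (by omega) (O A) _ (by rw [← hb]; exact hgetD j)
  have hnode : ∀ a ∈ H, ∃ j < qn i, Qs j = (rF MF (O A) (pairBits x a)).tail := by
    intro a ha
    obtain ⟨j, hj, hja⟩ := List.getElem_of_mem (Finset.mem_toList.2 ha)
    refine ⟨j, ?_, ?_⟩
    · rw [Finset.length_toList] at hj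
      omega
    · rw [hQ, List.getD_eq_getElem _ _ hj, hja]
  have hrows : 4 * (rows O M p A (T i) (T i + bx 3 l) (qn i) Qs).card < 2 ^ T i := by
    by_contra hcon
    push Not at hcon
    exact hA ⟨Qs, fun j _ => hQs j, hcon⟩
  -- the touched words
  have key : ∀ a : List Bool, ∃ S : Finset (List Bool),
      S.card ≤ MF.p.eval (pairBits x a).length ∧
      ∀ w : List Bool, w.length = T i → w ∉ S → ∀ c : ℕ,
        rF MF (O (plant (spots (T i + bx 3 l) (c, w)) A)) (pairBits x a) =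
          rF MF (O A) (pairBits x a) := by
    intro a
    obtain ⟨S, hS, hf⟩ := touched E.toEmb MF A (pairBits x a) (T i)
    refine ⟨S, hS, fun w hw hwS c => ?_⟩
    unfold rF
    rw [hf w hw hwS _ (off_plant c _ w A)]
  choose S hS hf using key
  set St := H.biUnion S with hSt
  have hStc : 8 * St.card ≤ 2 ^ T i := by
    obtain ⟨Z, hZ⟩ : ∃ Z, Z = MF.p.eval (2 * rt h i + 1 + b) := ⟨_, rfl⟩
    have g1 := hu' i b (by omega) (by rw [← hb])
    have g2 := h2 (T i) (by omega)
    rw [Polynomial.eval_pow, Polynomial.eval_mul, Polynomial.eval_C, ← hZ] at g1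
    have g3 : (16 * Z) ^ 2 ≤ 2 ^ T i := g1.trans g2
    have g4 : St.card ≤ H.card * Z := by
      refine Finset.card_biUnion_le_card_mul _ _ _ fun a ha => ?_
      have g5 := hS a
      rw [length_pairBits_A3, hx, List.length_replicate] at g5
      refine g5.trans ?_
      rw [hZ]
      have := hHb a ha
      exact poly_mono MF.p (by omega)
    have g7 : (8 * St.card) ^ 2 ≤ (2 ^ T i) ^ 2 := by
      calc (8 * St.card) ^ 2 ≤ (8 * (2 ^ (T i / 4) * Z)) ^ 2 :=
            Nat.pow_le_pow_left (Nat.mul_le_mul_left _ (g4.trans (Nat.mul_le_mul_right _ hHq))) 2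
        _ = 2 ^ (T i / 4 * 2) * (8 * Z) ^ 2 := by rw [pow_mul]; ring
        _ ≤ 2 ^ T i * 2 ^ T i := by
            refine Nat.mul_le_mul (Nat.pow_le_pow_right (by norm_num) (by omega)) (le_trans ?_ g3)
            exact Nat.pow_le_pow_left (by omega) 2
        _ = (2 ^ T i) ^ 2 := by ring
    exact (Nat.pow_le_pow_iff_left (by norm_num)).1 g7
  -- the old members stay members
  obtain ⟨S2, hS2, hst⟩ := stable E ok (by omega : i0 ≤ i) (le_refl (qn i))
    (fun j _ => hQs j) A
  -- the failing words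
  obtain ⟨G, hG⟩ : ∃ G : ℕ → Finset (List Bool), ∀ c, G c = (wds (T i)).filter
      (fun w => plant (spots (T i + bx 3 l) (c, w)) A ∈ FlK O M p h Q L σ MF i l) :=
    ⟨_, fun _ => rfl⟩
  by_contra hcon
  have hGc : ∀ c < 2, 4 * (G c).card < 2 ^ T i := by
    intro c hc
    by_contra hle
    push Not at hle
    refine hcon ⟨c, hc, G c, by rw [hG]; exact Finset.filter_subset _ _, hle, fun w hw => ?_⟩
    rw [hG, Finset.mem_filter] at hw
    exact hw.2
  have pick : ∀ F G' : Finset (List Bool), 4 * F.card < 2 ^ T i → 4 * G'.card < 2 ^ T i →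
      ∃ w ∈ wds (T i), w ∉ F ∧ w ∉ G' ∧ w ∉ St ∧ w ∉ S2 := by
    intro F G' hF hG'
    by_contra hno
    push Not at hno
    have hsub : wds (T i) ⊆ F ∪ G' ∪ St ∪ S2 := by
      intro w hw
      rw [Finset.mem_union, Finset.mem_union, Finset.mem_union]
      by_contra hn
      push Not at hn
      exact hn.2 (hno w hw hn.1.1.1 hn.1.1.2 hn.1.2)
    have g1 := Finset.card_le_card hsub
    have g2 := Finset.card_union_le (F ∪ G' ∪ St) S2
    have g3 := Finset.card_union_le (F ∪ G') St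
    have g4 := Finset.card_union_le F G'
    rw [card_wds] at g1
    omega
  obtain ⟨w, hw, hwr, hwG, hwS, hwS2⟩ := pick _ (G 0) hrows (hGc 0 (by norm_num))
  have hrow : 4 * (row O M p A (T i) (T i + bx 3 l) (qn i) Qs w).card < 2 ^ T i := by
    by_contra hle
    push Not at hle
    refine hwr ?_
    unfold rows
    rw [Finset.mem_filter]
    exact ⟨hw, hle⟩
  obtain ⟨w', hw', hwr', hwG', hwS', hwS2'⟩ := pick _ (G 1) hrow (hGc 1 (by norm_num))
  have hncf : ∀ j < qn i, ¬ Cfl O M p (plant (spots (T i + bx 3 l) (0, w)) A)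
      (plant (spots (T i + bx 3 l) (1, w')) A) (Qs j) := by
    intro j hj hc
    refine hwr' ?_
    unfold row
    rw [Finset.mem_filter]
    exact ⟨hw', j, hj, hc⟩
  obtain ⟨v, hv⟩ : ∃ v : ℕ → List Bool, ∀ c, v c = if c = 0 then w else w' := ⟨_, fun _ => rfl⟩
  have hv0 : v 0 = w := by rw [hv, if_pos rfl]
  have hv1 : v 1 = w' := by rw [hv, if_neg (by norm_num)]
  obtain ⟨φ, hφ⟩ : ∃ φ : Finset (List Bool), φ = ((Finset.range (qn i)).image Qs).filter
      (fun q => Mem (M 0) (p 0) (O (plant (spots (T i + bx 3 l) (0, v 0)) A)) q ∨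
        Mem (M 0) (p 0) (O (plant (spots (T i + bx 3 l) (1, v 1)) A)) q) := ⟨_, rfl⟩
  have hφm : ∀ j < qn i, (Qs j ∈ φ ↔
      (Mem (M 0) (p 0) (O (plant (spots (T i + bx 3 l) (0, v 0)) A)) (Qs j) ∨
        Mem (M 0) (p 0) (O (plant (spots (T i + bx 3 l) (1, v 1)) A)) (Qs j))) := by
    intro j hj
    rw [hφ, Finset.mem_filter]
    exact and_iff_right (Finset.mem_image_of_mem Qs (Finset.mem_range.2 hj))
  obtain ⟨d, hd⟩ : ∃ d, d = runQ (rF MF (O A)) (ansU L σ φ) x b [] := ⟨_, rfl⟩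
  obtain ⟨c, hc, hcd⟩ : ∃ c < 2, decide (c = 1) = d := by
    cases d
    · exact ⟨0, by norm_num, by simp⟩
    · exact ⟨1, by norm_num, by simp⟩
  have hcons : ∀ j < qn i,
      (Mem (M 0) (p 0) (O (plant (spots (T i + bx 3 l) (c, v c)) A)) (Qs j) → Qs j ∈ φ) ∧
      (Mem (M 1) (p 1) (O (plant (spots (T i + bx 3 l) (c, v c)) A)) (Qs j) → Qs j ∉ φ) := by
    intro j hj
    have hn := hncf j hj
    rw [← hv0, ← hv1] at hn
    unfold Cfl at hn
    interval_cases c
    · refine ⟨fun h => (hφm j hj).2 (Or.inl h), fun h h' => ?_⟩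
      exact hn ⟨(hφm j hj).1 h', Or.inl h⟩
    · refine ⟨fun h => (hφm j hj).2 (Or.inr h), fun h h' => ?_⟩
      exact hn ⟨(hφm j hj).1 h', Or.inr h⟩
  have hvl : (v c).length = T i := by
    interval_cases c
    · rw [hv0]; exact mem_wds.1 hw
    · rw [hv1]; exact mem_wds.1 hw'
  have hvS : v c ∉ St := by
    interval_cases c
    · rw [hv0]; exact hwS
    · rw [hv1]; exact hwS'
  have hvS2 : v c ∉ S2 := by
    interval_cases c
    · rw [hv0]; exact hwS2
    · rw [hv1]; exact hwS2'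
  have hvG : v c ∉ G c := by
    interval_cases c
    · rw [hv0]; exact hwG
    · rw [hv1]; exact hwG'
  -- the answers are allowed, before and after the planting
  have halw : ∀ j < qn i,
      Alw O M p L σ A (Qs j) (ansU L σ φ (Qs j)) ∧
      Alw O M p L σ (plant (spots (T i + bx 3 l) (c, v c)) A) (Qs j) (ansU L σ φ (Qs j)) := by
    intro j hj
    have hcj := hcons j hj
    have hst' : ∀ s < 2, Mem (M s) (p s) (O A) (Qs j) →
        Mem (M s) (p s) (O (plant (spots (T i + bx 3 l) (c, v c)) A)) (Qs j) :=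
      fun s hs => hst (v c) hvl hvS2 _ (off_plant c _ (v c) A) j hj s hs
    refine ⟨⟨fun h => ?_, fun h => ?_⟩, ⟨fun h => ?_, fun h => ?_⟩⟩
    · unfold ansU
      rw [if_pos h]
    · unfold ansU
      rw [if_neg (by omega), decide_eq_true_eq, decide_eq_false_iff_not]
      exact ⟨fun hm => hcj.1 (hst' 0 (by norm_num) hm), fun hm => hcj.2 (hst' 1 (by norm_num) hm)⟩
    · unfold ansU
      rw [if_pos h]
    · unfold ansU
      rw [if_neg (by omega), decide_eq_true_eq, decide_eq_false_iff_not]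
      exact hcj
  refine hvG ?_
  rw [hG, Finset.mem_filter]
  refine ⟨mem_wds.2 hvl, c, hc, ⟨v c, hvl, hit_plant c _ (v c) A⟩, ansU L σ φ, ?_⟩
  obtain ⟨L', hL'⟩ := exists_RunP (rF MF (O A)) (ansU L σ φ) x b []
  rw [← hd, ← hcd] at hL'
  rw [← hx, ← hb]
  have hinH : ∀ a : List Bool, a.length ≤ b →
      PH (rF MF (O A)) (ansU L σ φ) (fun q => Alw O M p L σ A q (ansU L σ φ q)) x a → a ∈ H := by
    intro a ha hPH
    rw [hH]
    unfold HistF
    rw [Finset.mem_filter, List.mem_toFinset, mem_strs, ← hb, ← hx]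
    exact ⟨ha, _, hPH⟩
  refine runP_of_inv (B := b)
    (I := fun a => a.length ≤ b ∧
      PH (rF MF (O A)) (ansU L σ φ) (fun q => Alw O M p L σ A q (ansU L σ φ q)) x a)
    (fun a ha => hf a (v c) hvl (fun hm => hvS (by
      rw [hSt]
      exact Finset.mem_biUnion.2 ⟨a, hinH a ha.1 ha.2, hm⟩)) c)
    (fun a ha => ?_) (fun a ha hlt hhd => ?_)
    (by simp) ⟨Nat.zero_le _, PH.nil _ _ _ _⟩
    (hL'.change (fun _ _ => trivial) fun _ _ => rfl)
  · obtain ⟨j, hj, hja⟩ := hnode a (hinH a ha.1 ha.2)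
    rw [← hja]
    exact (halw j hj).2
  · obtain ⟨j, hj, hja⟩ := hnode a (hinH a ha.1 ha.2)
    refine ⟨?_, ha.2.snoc hhd ?_⟩
    · rw [List.length_append, List.length_singleton]
      omega
    · rw [← hja]
      exact (halw j hj).1

theorem arith5 {v X Y Z a R : ENNReal} (hv : v ≤ 1) (h1 : X ≤ Y + Z) (h2 : Y ≤ a)
    (h3 : v * Z ≤ 4 * a + 16 * R) : v * 2⁻¹ * X ≤ 4 * a + 16 * R := by
  have h4 : v * 2⁻¹ * X ≤ 2⁻¹ * (v * Y) + 2⁻¹ * (v * Z) := by
    calc v * 2⁻¹ * X ≤ v * 2⁻¹ * (Y + Z) := by gcongr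
      _ = _ := by ring
  have h5 : v * Y ≤ 4 * a + 16 * R := by
    calc v * Y ≤ 1 * a := mul_le_mul' hv h2
      _ ≤ 4 * a := by gcongr; norm_num
      _ ≤ _ := le_self_add
  calc v * 2⁻¹ * X ≤ 2⁻¹ * (v * Y) + 2⁻¹ * (v * Z) := h4
    _ ≤ 2⁻¹ * (4 * a + 16 * R) + 2⁻¹ * (4 * a + 16 * R) := by gcongr
    _ = 4 * a + 16 * R := by rw [← add_mul, ENNReal.inv_two_add_inv_two, one_mul]

include E ok in
theorem fail_boundF (hP : P.natDegree < 2 ^ h) (L : ℕ) (σ : Finset (List Bool)) (MF : Alg) :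
    ∃ i1 ≥ i0, (∀ i ≥ i1, ∀ l ≤ i,
    Loc {x | x.length ≤ 2 ^ T i} (FlF O M p h P Q L σ MF i l)) ∧
    ∀ i ≥ i1, ∀ m ≤ i, ∀ R : Set Oracle, Loc {x | x.length ≤ T i} R →
      (2⁻¹ : ENNReal) ^ (bx 3 m) * 2⁻¹ * randomOracle (R ∩ (Cap3 O M p K i m)ᶜ) ≤
        4 * randomOracle (R ∩ FlF O M p h P Q L σ MF i m) +
          16 * 2⁻¹ ^ (2 * bx 3 m) * randomOracle R := by
  classical
  obtain ⟨i1, hi1, hL⟩ := loc_FlK E ok h Q L σ MF
  obtain ⟨i3, hi3, hL3⟩ := loc_Mny E ok h P Q L σ MF
  obtain ⟨i2, hi2, hC⟩ := plant_FlF E ok h P Q hP L σ MF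
  refine ⟨max i1 (max i2 i3), le_trans hi1 (le_max_left _ _), ?_, ?_⟩
  · intro i hi l hl A A' hA
    have hi' : i1 ≤ i := le_trans (le_max_left _ _) hi
    have hi''' : i3 ≤ i := le_trans (le_trans (le_max_right _ _) (le_max_right _ _)) hi
    exact or_congr (hL i hi' l hl A A' hA) (hL3 i hi''' A A' hA)
  intro i hi m hm R hR
  have hi' : i1 ≤ i := le_trans (le_max_left _ _) hi
  have hi'' : i2 ≤ i := le_trans (le_trans (le_max_left _ _) (le_max_right _ _)) hi
  have hFl : MeasurableSet (FlK O M p h Q L σ MF i m) :=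
    measurableSet_of_loc (finite_length_le _) (hL i hi' m hm)
  have hRm : MeasurableSet R := measurableSet_of_loc (finite_length_le _) hR
  rw [mul_assoc 16]
  refine arith5 (Y := randomOracle (R ∩ Mny O M p h P Q L σ MF i))
    (Z := randomOracle (R ∩ (Cap3 O M p K i m ∪ Mny O M p h P Q L σ MF i)ᶜ))
    (pow_le_one' (by simp) _) ?_ (measure_mono (Set.inter_subset_inter_right _
      Set.subset_union_right)) ?_
  · refine le_trans (measure_mono ?_) (measure_union_le _ _)
    rintro A ⟨h5, h6⟩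
    by_cases h7 : A ∈ Mny O M p h P Q L σ MF i
    · exact Or.inl ⟨h5, h7⟩
    · exact Or.inr ⟨h5, fun h8 => h8.elim h6 h7⟩
  rw [← mul_assoc 16]
  have h1 := Pool.Agent.J4H98.NPP.t_PL (ℕ × List Bool) (Finset.range 2 ×ˢ wds (T i))
    (fun κ => spots (T i + bx 3 m) κ) (T i + bx 3 m)
    (2 ^ T i / 4) (R ∩ (Cap3 O M p K i m ∪ Mny O M p h P Q L σ MF i)ᶜ)
    (R ∩ FlK O M p h Q L σ MF i m) (hRm.inter hFl) ?_ ?_
  · have h9 : (2⁻¹ : ENNReal) ^ (bx 3 m) *
        randomOracle (R ∩ (Cap3 O M p K i m ∪ Mny O M p h P Q L σ MF i)ᶜ) ≤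
        4 * randomOracle (R ∩ FlK O M p h Q L σ MF i m) +
          16 * 2⁻¹ ^ (2 * bx 3 m) * randomOracle R := by
      refine arith2 (two_le_T ok.ok2.ok (hi2.trans hi'')) (h1.trans ?_)
      gcongr
      have h2 := (Pool.Agent.J4H45.NPP.t_UP (T i) (bx 3 m) R (FlK O M p h Q L σ MF i m) hR hFl).1
      rw [Finset.sum_product]
      refine le_of_eq_of_le ?_ h2
      refine Finset.sum_congr rfl fun c _ => Finset.sum_congr rfl fun w _ => ?_
      congr 2
      ext A
      exact ones_iff _ _ _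
    refine h9.trans ?_
    gcongr
    exact Set.subset_union_left
  · intro κ _
    exact card_spots_le _ _
  · rintro A ⟨hA, hCp⟩
    obtain ⟨c, hc, I', hI', hcard, hp⟩ := hC i hi'' m A (fun h => hCp (Or.inl h))
      (fun h => hCp (Or.inr h))
    refine ⟨I'.image (fun w => (c, w)), ?_, ?_, ?_⟩
    · intro κ hκ
      obtain ⟨w, hw, rfl⟩ := Finset.mem_image.1 hκ
      exact Finset.mem_product.2 ⟨Finset.mem_range.2 hc, hI' hw⟩
    · rw [Finset.card_image_of_injective _ (fun w w' h => (Prod.ext_iff.1 h).2)]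
      omega
    · intro κ hκ
      obtain ⟨w, hw, rfl⟩ := Finset.mem_image.1 hκ
      exact ⟨(plant_mem_iff hR (lt_length_spots (mem_wds.1 (hI' hw))) A).2 hA, hp w hw⟩

end

end Pool.Agent.J4H25.NPF
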