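import Pool.Agent.J4H25.NPF.Out

set_option autoImplicit false

/-!
# The negative half for all finite changes
-/

namespace Pool.Agent.J4H25.NPF

open MeasureTheory Pool.Agent.H628R3.RO Pool.Agent.J4H63.ESY Pool.Agent.J4H25.NPP
open Pool.Agent.J4H25.NPK

theorem neg (E : Oracle) : ∀ᵐ B ∂randomOracle, ∀ S : Oracle, {y | S y = true}.Finite →
    NoHardPairF (join B (join E S)) := by
  classical
  have h1 : ∀ᵐ B ∂randomOracle, ∀ F : Finset (List Bool),
      NoHardPairF (join B (join E (fun y => decide (y ∈ F)))) := by
    rw [ae_all_iff]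
    intro F
    exact mainF (embJoin2 (join E (fun y => decide (y ∈ F))))
  filter_upwards [h1] with B hB S hS
  have h2 : S = fun y => decide (y ∈ hS.toFinset) := by
    funext y
    cases h3 : S y with
    | true => exact (decide_eq_true (hS.mem_toFinset.2 h3)).symm
    | false =>
      refine (decide_eq_false fun h4 => ?_).symm
      have h5 : S y = true := hS.mem_toFinset.1 h4
      rw [h3] at h5
      exact absurd h5 (by simp)
  have h3 := hB hS.toFinset
  rw [← h2] at h3
  exact h3

/-- no pair is complete, for procedures with few computations or with `O(|x| ^ k)` questions -/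
theorem NoHardPairF.no_complete' {B : Oracle} (hB : NoHardPairF B) (k : ℕ) :
    ¬ ∃ C D : Set (List Bool), IsPair (IsNP B) C D ∧
      ∀ X Y : Set (List Bool), IsPair (IsNP B) X Y → RedF B k X Y C D ∨ RedK B k X Y C D := by
  rintro ⟨C, D, hCD, h⟩
  refine hB.no_complete k ⟨C, D, hCD, fun X Y hXY => (h X Y hXY).elim id fun h1 S hS => ?_⟩
  obtain ⟨P, hP, r, hr, h2⟩ := h1 S hS
  exact ⟨P + Polynomial.C 1, P, Polynomial.natDegree_add_C.le.trans hP, r, hr,
    few_self C D P r, h2⟩

end Pool.Agent.J4H25.NPF
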