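import Pool.Agent.J4H25.NPF.Fb
import Pool.Agent.J4H25.NPU.Gen
import Pool.Agent.J4H25.NPB.Main
import Pool.Agent.J4H25.NPK.Main

set_option autoImplicit false

/-!
# No pair is complete for procedures with few computations
-/

namespace Pool.Agent.J4H25.NPF

open MeasureTheory Filter Pool.Agent.NPC Pool.Agent.H628R3.RO Pool.Agent.J4H63.ESY Pool.Agent.J4H45.OPT
open Pool.Agent.J4H45.EXP (T wds T_strictMono le_T T_pos two_pow_T_le two_pow_T_lt mem_wds card_wds)
open Pool.Agent.J4H25.NPP Pool.Agent.J4H25.NPB Pool.Agent.J4H25.NPK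

section

variable {O : Oracle → Oracle} (E : Emb2 O) {M : ℕ → Alg} {p : ℕ → Polynomial ℕ} {K i0 : ℕ}
  (ok : Ok3 M p K i0)

theorem sum_half : ∑' m, (2⁻¹ : ENNReal) ^ (bx 3 m) * 2⁻¹ = ⊤ := by
  rw [ENNReal.tsum_mul_right, sum_bx2 3]
  exact ENNReal.top_mul (by simp)

include E ok in
theorem ae_F : ∀ᵐ A ∂randomOracle,
    (∀ i ≥ i0, A ∉ Er O M p K i) →
    (∀ᶠ i in atTop, ∀ c < 2, ∀ c' < 2, A ∉ TwB 3 c c' i (lvG (Cap3 O M p K) i0 A i)) ∧
    ∀ (h : ℕ) (P Q : Polynomial ℕ), P.natDegree < 2 ^ h →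
      ∀ (MF : Alg) (L : ℕ) (σ : Finset (List Bool)) (N : ℕ), ∃ i ≥ N,
        A ∈ FlF O M p h P Q L σ MF i (lvG (Cap3 O M p K) i0 A i) := by
  have h1 : ∀ᵐ A ∂randomOracle, ∀ (h : ℕ) (P Q : Polynomial ℕ) (MF : Alg) (L : ℕ)
      (σ : Finset (List Bool)) (N c c' : ℕ), P.natDegree < 2 ^ h →
      c < 2 → c' < 2 → (∀ k, A ∉ Er O M p K (i0 + k)) →
      (∀ᶠ k in atTop, A ∉ AtG (Cap3 O M p K) i0 (i0 + k) (fun l => TwB 3 c c' (i0 + k) l)) ∧
      ∃ k ≥ N, A ∈ AtG (Cap3 O M p K) i0 (i0 + k)
        (fun l => FlF O M p h P Q L σ MF (i0 + k) l) := by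
    rw [ae_all_iff]; intro h
    rw [ae_all_iff]; intro P
    rw [ae_all_iff]; intro Q
    rw [ae_all_iff]; intro MF
    rw [ae_all_iff]; intro L
    rw [ae_all_iff]; intro σ
    rw [ae_all_iff]; intro N
    rw [ae_all_iff]; intro c
    rw [ae_all_iff]; intro c'
    by_cases hP : P.natDegree < 2 ^ h
    · by_cases hc : c < 2
      · by_cases hc' : c' < 2
        · obtain ⟨i1, hi1, hL, hf⟩ := fail_boundF E ok h P Q hP L σ MF
          have h2 := Pool.Agent.J4H25.NPU.key_genU (Cp := Cap3 O M p K) (i0 := i0) (a := bx 3)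
            (fun i hi l => loc_Cap3 E ok hi l) (sum_bx1 3)
            (v := fun m => (2⁻¹ : ENNReal) ^ (bx 3 m) * 2⁻¹)
            (fun m => ENNReal.mul_ne_top (ENNReal.pow_ne_top (by simp)) (by simp)) sum_half
            (κ := 4 * 4 ^ 3) (ENNReal.mul_ne_top (by norm_num) (ENNReal.pow_ne_top (by norm_num)))
            (Er := Er O M p K) (fun i hi => loc_Er' E ok.ok2.ok hi)
            (fun i hi m R hR => cap_bound3 E ok hi m hR)
            (Bt := fun i l => TwB 3 c c' i l) (fun i hi l hl => loc_TwB ok.ok2 hi hl hc hc')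
            (fun i _ m R hR => two_boundB 3 c c' i m hR)
            (Fs := fun i l => FlF O M p h P Q L σ MF i l) hi1 hL hf N
          filter_upwards [h2] with A hA _ _ _
          exact hA
        · exact Filter.Eventually.of_forall fun A _ _ h => absurd h hc'
      · exact Filter.Eventually.of_forall fun A _ h => absurd h hc
    · exact Filter.Eventually.of_forall fun A h => absurd h hP
  filter_upwards [h1] with A hA hE
  have hE' : ∀ k, A ∉ Er O M p K (i0 + k) := fun k => hE _ (by omega)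
  have h3 : ∀ c c' : ℕ, c < 2 → c' < 2 →
      ∀ᶠ i in atTop, A ∉ TwB 3 c c' i (lvG (Cap3 O M p K) i0 A i) := by
    intro c c' hc hc'
    obtain ⟨N, hN⟩ := eventually_atTop.1 (hA 0 0 0 (M 0) 0 ∅ 0 c c' (by simp) hc hc' hE').1
    refine eventually_atTop.2 ⟨i0 + N, fun i hi => ?_⟩
    obtain ⟨k, rfl⟩ : ∃ k, i = i0 + k := ⟨i - i0, by omega⟩
    intro h1
    exact hN k (by omega) ((mem_AtG (Cap3 O M p K) i0).2 h1)
  refine ⟨?_, fun h P Q hP MF L σ N => ?_⟩
  · filter_upwards [h3 0 0 (by norm_num) (by norm_num), h3 0 1 (by norm_num) (by norm_num),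
      h3 1 0 (by norm_num) (by norm_num), h3 1 1 (by norm_num) (by norm_num)] with i a b d f
    intro c hc c' hc'
    interval_cases c <;> interval_cases c' <;> assumption
  · obtain ⟨k, hk, h⟩ := (hA h P Q MF L σ N 0 0 hP (by norm_num) (by norm_num) hE').2
    exact ⟨i0 + k, by omega, (mem_AtG (Cap3 O M p K) i0).1 h⟩

end

/-! ### The theorem -/

/-- The procedure `r` with at most `Q(|x|)` questions has, on every input `x`, at most `2 ^ P(|x|)`
different computations (answer sequences) over all separators of `(C, D)`. -/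
def Few (C D : Set (List Bool)) (P Q : Polynomial ℕ) (r : List Bool → List Bool) : Prop :=
  ∀ x : List Bool, {a : List Bool | ∃ S : List Bool → Bool, IsSep C D S ∧
    ansL r S x (Q.eval x.length) [] = a}.ncard ≤ 2 ^ P.eval x.length

/-- Every disjoint pair `(C, D)` of `NP` sets (relative to `B`) has a separator `S` such that for
every `k` there is a disjoint pair of nonempty tally `UP` sets such that, for every polynomial `P` of
degree at most `k` and every polynomial `Q`, every polynomial-time procedure with at most `Q(|x|)`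
(adaptive) questions to `S`, and at most `2 ^ P(|x|)` computations over all separators of `(C, D)`,
errs on this pair, on infinitely many inputs `x`. -/
def NoHardPairF (B : Oracle) : Prop :=
  ∀ C D : Set (List Bool), IsPair (IsNP B) C D →
    ∃ S : List Bool → Bool, IsSep C D S ∧ ∀ k : ℕ,
      ∃ X Y : Set (List Bool), IsPair (IsUP B) X Y ∧ X.Nonempty ∧ Y.Nonempty ∧
        (∀ x, x ∈ X ∨ x ∈ Y → ∃ n, x = List.replicate n false) ∧
        ∀ P Q : Polynomial ℕ, P.natDegree ≤ k →
          ∀ r : List Bool → List Bool, IsFP B r → Few C D P Q r →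
            ∀ N : ℕ, ∃ x : List Bool, N ≤ x.length ∧
              (x ∈ X ∧ runQ r S x (Q.eval x.length) [] = false ∨
                x ∈ Y ∧ runQ r S x (Q.eval x.length) [] = true)

theorem finite_ans (C D : Set (List Bool)) (r : List Bool → List Bool) (x : List Bool) (b : ℕ) :
    {a : List Bool | ∃ S : List Bool → Bool, IsSep C D S ∧ ansL r S x b [] = a} ⊆
      ((strs b).toFinset : Set (List Bool)) := by
  rintro a ⟨S, -, rfl⟩
  rw [Finset.mem_coe, List.mem_toFinset, mem_strs]
  have := (prefix_ansL r S x b []).2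
  simpa using this

/-- few computations: few histories -/
theorem card_hist {C D : Set (List Bool)} {P Q : Polynomial ℕ} {r : List Bool → List Bool}
    (hF : Few C D P Q r) (x : List Bool) (H : Finset (List Bool))
    (hH : ∀ a ∈ H, a.length ≤ Q.eval x.length ∧ ∃ S : List Bool → Bool, IsSep C D S ∧
      a <+: ansL r S x (Q.eval x.length) []) :
    H.card ≤ (Q.eval x.length + 1) * 2 ^ P.eval x.length := by
  classical
  set b := Q.eval x.length with hb
  have hfin := (Finset.finite_toSet (strs b).toFinset).subset (finite_ans C D r x b)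
  have h1 : hfin.toFinset.card ≤ 2 ^ P.eval x.length := by
    rw [← Set.ncard_eq_toFinset_card _ hfin]
    exact hF x
  have h2 : H ⊆ (Finset.range (b + 1) ×ˢ hfin.toFinset).image (fun t => t.2.take t.1) := by
    intro a ha
    obtain ⟨ha1, S, hS, ha2⟩ := hH a ha
    refine Finset.mem_image.2 ⟨(a.length, ansL r S x b []), ?_, ?_⟩
    · rw [Finset.mem_product, Finset.mem_range, Set.Finite.mem_toFinset]
      exact ⟨by omega, S, hS, rfl⟩
    · exact (List.prefix_iff_eq_take.1 ha2).symm
  calc H.card ≤ _ := Finset.card_le_card h2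
    _ ≤ (Finset.range (b + 1) ×ˢ hfin.toFinset).card := Finset.card_image_le
    _ = (b + 1) * hfin.toFinset.card := by rw [Finset.card_product, Finset.card_range]
    _ ≤ _ := Nat.mul_le_mul_left _ h1

theorem mainF {O : Oracle → Oracle} (E : Emb2 O) :
    ∀ᵐ A ∂randomOracle, NoHardPairF (O A) := by
  classical
  have hex : ∀ (M : ℕ → Alg) (p : ℕ → Polynomial ℕ), ∃ K i0, Ok3 M p K i0 :=
    exists_ok3
  choose K i0 ok using hex
  have h1 : ∀ᵐ A ∂randomOracle, ∀ (M0 M1 : Alg) (p0 p1 : Polynomial ℕ),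
      (∀ i ≥ i0 (two M0 M1) (two p0 p1),
        A ∉ Er O (two M0 M1) (two p0 p1) (K (two M0 M1) (two p0 p1)) i) →
      (∀ᶠ i in atTop, ∀ c < 2, ∀ c' < 2, A ∉ TwB 3 c c' i
        (lvG (Cap3 O (two M0 M1) (two p0 p1) (K (two M0 M1) (two p0 p1)))
          (i0 (two M0 M1) (two p0 p1)) A i)) ∧
      ∀ (h : ℕ) (P Q : Polynomial ℕ), P.natDegree < 2 ^ h →
        ∀ (MF : Alg) (L : ℕ) (σ : Finset (List Bool)) (N : ℕ), ∃ i ≥ N,
        A ∈ FlF O (two M0 M1) (two p0 p1) h P Q L σ MF i
          (lvG (Cap3 O (two M0 M1) (two p0 p1) (K (two M0 M1) (two p0 p1)))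
            (i0 (two M0 M1) (two p0 p1)) A i) := by
    rw [ae_all_iff]
    intro M0
    rw [ae_all_iff]
    intro M1
    rw [ae_all_iff]
    intro p0
    rw [ae_all_iff]
    intro p1
    exact ae_F E (ok (two M0 M1) (two p0 p1))
  filter_upwards [h1] with A hA
  rintro C D ⟨⟨V0, p0, ⟨M0, hM0⟩, hC⟩, ⟨V1, p1, ⟨M1, hM1⟩, hD⟩, hdis⟩
  have hA' := hA M0 M1 p0 p1
  have ok' := ok (two M0 M1) (two p0 p1)
  have hm0 : ∀ q, Mem (two M0 M1 0) (two p0 p1 0) (O A) q ↔ q ∈ C := by
    intro q
    rw [hC q]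
    unfold Mem two
    simp only [if_true]
    refine exists_congr fun u => and_congr_right fun _ => ?_
    rw [hM0, Option.some.injEq]
  have hm1 : ∀ q, Mem (two M0 M1 1) (two p0 p1 1) (O A) q ↔ q ∈ D := by
    intro q
    rw [hD q]
    unfold Mem two
    simp only [one_ne_zero, if_false]
    refine exists_congr fun u => and_congr_right fun _ => ?_
    rw [hM1, Option.some.injEq]
  generalize two M0 M1 = M at *
  generalize two p0 p1 = p at *
  generalize K M p = K' at *
  generalize i0 M p = i0' at *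
  have hE : ∀ i ≥ i0', A ∉ Er O M p K' i := by
    rintro i - ⟨q, -, h0, h1⟩
    exact hdis q ⟨(hm0 q).1 h0, (hm1 q).1 h1⟩
  obtain ⟨hev, hfl⟩ := hA' hE
  obtain ⟨N1, hN1⟩ := eventually_atTop.1 hev
  -- the first stage
  have hi1 : ∀ k : ℕ, ∃ i1, N1 ≤ i1 ∧ i0' ≤ i1 ∧ 6 + 5 ^ 2 ^ k ≤ i1 := fun k =>
    ⟨max N1 (max i0' (6 + 5 ^ 2 ^ k)), le_max_left _ _,
      (le_max_left _ _).trans (le_max_right _ _), (le_max_right _ _).trans (le_max_right _ _)⟩
  choose i1 h1a h1b h1c using hi1
  have hlen : ∀ k c x, x ∈ LgK O M p K' i0' (i1 k) k A c → 5 ≤ x.length := by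
    rintro k c x ⟨-, i, hi, hx, -⟩
    have h2 := congrArg List.length hx
    rw [List.length_replicate, List.length_replicate] at h2
    have h3 := le_T i
    by_contra hlt
    push Not at hlt
    have h4 : x.length ^ 2 ^ k ≤ 5 ^ 2 ^ k := Nat.pow_le_pow_left (by omega) _
    have h5 := h1c k
    omega
  obtain ⟨W, hW⟩ : ∃ W : ℕ → ℕ → Set (List Bool), ∀ k c, W k c =
      insert (List.replicate (3 + c) false) (LgK O M p K' i0' (i1 k) k A c) := ⟨_, fun _ _ => rfl⟩
  have : Nonempty ((Σ k : ℕ, {P : Polynomial ℕ // P.natDegree ≤ k}) × Polynomial ℕ × Alg × ℕ) :=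
    ⟨(⟨0, 0, by simp⟩, 0, M0, 0)⟩
  obtain ⟨Mt, hMt⟩ : ∃ Mt : (Σ k : ℕ, {P : Polynomial ℕ // P.natDegree ≤ k}) ×
      Polynomial ℕ × Alg × ℕ → (List Bool → Bool) → Prop, ∀ ρ S, Mt ρ S ↔
      (Few C D ρ.1.2.1 ρ.2.1 (rF ρ.2.2.1 (O A)) →
      ∃ x : List Bool, ρ.2.2.2 ≤ x.length ∧
      (x ∈ W ρ.1.1 0 ∧ runQ (rF ρ.2.2.1 (O A)) S x (ρ.2.1.eval x.length) [] = false ∨
      x ∈ W ρ.1.1 1 ∧ runQ (rF ρ.2.2.1 (O A)) S x (ρ.2.1.eval x.length) [] = true)) :=
    ⟨_, fun _ _ => Iff.rfl⟩
  have hlim : ∃ S, IsSep C D S ∧ ∀ ρ, Mt ρ S := by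
    refine limit (Req := (Σ k : ℕ, {P : Polynomial ℕ // P.natDegree ≤ k}) ×
      Polynomial ℕ × Alg × ℕ) (C := C) (D := D) hdis ?_
    rintro ⟨⟨k, P, hP⟩, Q, MF, N⟩ S L hS
    by_cases hFew : Few C D P Q (rF MF (O A))
    swap
    · exact ⟨S, L, hS, fun _ _ => rfl, fun S'' _ => (hMt _ _).2 fun h => absurd h hFew⟩
    obtain ⟨σ, hσ⟩ : ∃ σ : Finset (List Bool), ∀ q : List Bool, q.length ≤ L →
        (decide (q ∈ σ) = S q) := by
      refine ⟨((strs L).filter (fun q => S q)).toFinset, fun q hq => ?_⟩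
      have h3 : q ∈ ((strs L).filter (fun q => S q)).toFinset ↔ S q = true := by
        rw [List.mem_toFinset, List.mem_filter, mem_strs]
        exact and_iff_right hq
      cases hSq : S q with
      | true => exact decide_eq_true (h3.2 hSq)
      | false => exact decide_eq_false fun h => by rw [h3.1 h] at hSq; exact absurd hSq (by simp)
    -- from allowed answers to a separator
    have hglue : ∀ S1 : List Bool → Bool, ∃ S' : List Bool → Bool,
        (∀ q, Alw O M p L σ A q (S1 q) → S' q = S1 q) ∧ IsSep C D S' ∧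
        ∀ q : List Bool, q.length ≤ L → S' q = S q := by
      intro S1
      obtain ⟨S', hS'⟩ : ∃ S' : List Bool → Bool, ∀ q, S' q =
          if Alw O M p L σ A q (S1 q) then S1 q else S q := ⟨_, fun q => rfl⟩
      refine ⟨S', fun q hq => by rw [hS' q, if_pos hq], ⟨fun q hq => ?_, fun q hq => ?_⟩,
        fun q hq => ?_⟩
      · rw [hS' q]
        split_ifs with h3
        · by_cases hql : q.length ≤ L
          · rw [h3.1 hql, hσ q hql]
            exact hS.1 q hq
          · exact (h3.2 (by omega)).1 ((hm0 q).2 hq)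
        · exact hS.1 q hq
      · rw [hS' q]
        split_ifs with h3
        · by_cases hql : q.length ≤ L
          · rw [h3.1 hql, hσ q hql]
            exact hS.2 q hq
          · exact (h3.2 (by omega)).2 ((hm1 q).2 hq)
        · exact hS.2 q hq
      · rw [hS' q]
        split_ifs with h3
        · rw [h3.1 hq, hσ q hq]
        · rfl
    obtain ⟨i, hi, hFl⟩ := hfl k P Q (lt_of_le_of_lt hP Nat.lt_two_pow_self) MF L σ
      (i1 k + N + k + 1)
    rcases hFl with ⟨c, hc, hH, S1, hrun⟩ | hMny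
    swap
    · exfalso
      have h2 : (Q.eval (rt k i) + 1) * 2 ^ P.eval (rt k i) <
        (HistF O M p k Q L σ MF i A).card := hMny
      have h3 := card_hist hFew (List.replicate (rt k i) false) (HistF O M p k Q L σ MF i A) (by
        intro a ha
        unfold HistF at ha
        rw [Finset.mem_filter, List.mem_toFinset, mem_strs] at ha
        obtain ⟨hab, S1, hPH⟩ := ha
        rw [List.length_replicate]
        refine ⟨hab, ?_⟩
        obtain ⟨S', hS1, hS2, -⟩ := hglue S1
        exact ⟨S', hS2, (hPH.change (P' := fun _ => True) (fun _ _ => trivial) hS1).beg hab⟩)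
      rw [List.length_replicate] at h3
      omega
    have hmemx : List.replicate (rt k i) false ∈ W k c := by
      rw [hW]
      refine Set.mem_insert_of_mem _ ⟨by rw [List.length_replicate], i, by omega, ?_, hH⟩
      rw [List.length_replicate, rt_pow (by omega)]
    obtain ⟨S', hS1, hS2, hS3⟩ := hglue S1
    have hrun' : RunP (rF MF (O A)) S' (fun _ => True) (List.replicate (rt k i) false)
        (decide (c = 1)) (Q.eval (rt k i)) [] :=
      hrun.change (fun _ _ => trivial) fun q hq => hS1 q hq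
    have hd1 := hrun'.runQ
    obtain ⟨L', hL'⟩ := exists_RunP (rF MF (O A)) S' (List.replicate (rt k i) false)
      (Q.eval (rt k i)) []
    rw [hd1] at hL'
    refine ⟨S', L', hS2, hS3, fun S'' hS'' => ?_⟩
    rw [hMt]
    intro _
    have h4 := (hL'.change (S' := S'') (P' := fun _ => True) (fun _ _ => trivial)
      fun q hq => hS'' q hq).runQ
    refine ⟨List.replicate (rt k i) false, ?_, ?_⟩
    · rw [List.length_replicate]
      have h5 := le_rt k i
      have h6 : N ≤ rt k i := by omega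
      exact h6
    · rw [List.length_replicate]
      interval_cases c
      · exact Or.inl ⟨hmemx, by rw [h4]; rfl⟩
      · exact Or.inr ⟨hmemx, by rw [h4]; rfl⟩
  obtain ⟨S, hS, hmeet⟩ := hlim
  refine ⟨S, hS, fun k => ⟨W k 0, W k 1, ⟨?_, ?_, ?_⟩, ?_, ?_, ?_, ?_⟩⟩
  · rw [hW]
    exact IsUP.insert (isUP_LgK E ok' (h1b k) k A 0 fun i hi => hN1 i ((h1a k).trans hi)
      0 (by norm_num) 0 (by norm_num)) _
  · rw [hW]
    exact IsUP.insert (isUP_LgK E ok' (h1b k) k A 1 fun i hi => hN1 i ((h1a k).trans hi)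
      1 (by norm_num) 1 (by norm_num)) _
  · rintro x ⟨h2, h3⟩
    rw [hW, Set.mem_insert_iff] at h2 h3
    rcases h2 with h2 | h2
    · rcases h3 with h3 | h3
      · rw [h2] at h3
        exact absurd (congrArg List.length h3) (by simp)
      · have := hlen k 1 x h3
        rw [h2, List.length_replicate] at this
        omega
    · rcases h3 with h3 | h3
      · have := hlen k 0 x h2
        rw [h3, List.length_replicate] at this
        omega
      · obtain ⟨-, i, hi, hx, w, hw, hh⟩ := h2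
        obtain ⟨-, i', hi', hx', w', hw', hh'⟩ := h3
        have hii : i' = i := by
          apply T_strictMono.injective
          have e1 := congrArg List.length hx
          have e2 := congrArg List.length hx'
          simp only [List.length_replicate] at e1 e2
          omega
        subst hii
        exact hN1 i' ((h1a k).trans hi) 0 (by norm_num) 1 (by norm_num)
          ⟨w, w', hw, hw', fun h => absurd (Prod.ext_iff.1 h).1 (by norm_num), hh, hh'⟩
  · rw [hW]
    exact Set.insert_nonempty _ _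
  · rw [hW]
    exact Set.insert_nonempty _ _
  · have htal : ∀ c x, x ∈ W k c → ∃ n, x = List.replicate n false := by
      intro c x hx
      rw [hW] at hx
      rcases Set.mem_insert_iff.1 hx with h3 | ⟨h3, -⟩
      · exact ⟨_, h3⟩
      · exact ⟨_, h3⟩
    rintro x (h2 | h2)
    · exact htal 0 x h2
    · exact htal 1 x h2
  · rintro P Q hP r ⟨MF, hMF⟩ hFew N
    have hr : rF MF (O A) = r := by
      funext y
      unfold rF
      rw [hMF]
      rfl
    have h2 := (hMt (⟨k, P, hP⟩, Q, MF, N) S).1 (hmeet (⟨k, P, hP⟩, Q, MF, N))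
    rw [hr] at h2
    exact h2 hFew

/-- Reducibility of pairs by procedures with few computations: for every separator `S` of `(C, D)`
there are a polynomial `P` of degree at most `k`, a polynomial `Q`, and a polynomial-time procedure
with at most `Q(|x|)` (adaptive) questions to `S`, and at most `2 ^ P(|x|)` computations over all
separators of `(C, D)`, which separates `(X, Y)`. -/
def RedF (B : Oracle) (k : ℕ) (X Y C D : Set (List Bool)) : Prop :=
  ∀ S : List Bool → Bool, IsSep C D S →
    ∃ P Q : Polynomial ℕ, P.natDegree ≤ k ∧ ∃ r : List Bool → List Bool, IsFP B r ∧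
      Few C D P Q r ∧ IsSep X Y (fun x => runQ r S x (Q.eval x.length) [])

theorem NoHardPairF.no_complete {B : Oracle} (h : NoHardPairF B) (k : ℕ) :
    ¬ ∃ C D : Set (List Bool), IsPair (IsNP B) C D ∧
      ∀ X Y : Set (List Bool), IsPair (IsNP B) X Y → RedF B k X Y C D := by
  rintro ⟨C, D, hCD, hr⟩
  obtain ⟨S, hS, h4⟩ := h C D hCD
  obtain ⟨X, Y, hXY, -, -, -, h5⟩ := h4 k
  obtain ⟨P, Q, hP, r, hr1, hF, hr2⟩ :=
    hr X Y ⟨IsUP.isNP hXY.1, IsUP.isNP hXY.2.1, hXY.2.2⟩ S hS
  obtain ⟨x, -, hx | hx⟩ := h5 P Q hP r hr1 hF 0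
  · have := hr2.1 x hx.1
    simp only at this
    rw [hx.2] at this
    exact absurd this (by simp)
  · have := hr2.2 x hx.1
    simp only at this
    rw [hx.2] at this
    exact absurd this (by simp)

/-- every procedure with at most `Q(|x|)` questions has at most `2 ^ (Q(|x|) + 1)` computations -/
theorem few_self (C D : Set (List Bool)) (Q : Polynomial ℕ) (r : List Bool → List Bool) :
    Few C D (Q + Polynomial.C 1) Q r := by
  intro x
  have h1 := Set.ncard_le_ncard (finite_ans C D r x (Q.eval x.length)) (Finset.finite_toSet _)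
  rw [Set.ncard_coe_finset] at h1
  rw [Polynomial.eval_add, Polynomial.eval_C]
  have h2 := List.toFinset_card_le (strs (Q.eval x.length))
  have h3 := length_strs (Q.eval x.length)
  omega

/-- the case of `O(|x| ^ k)` questions -/
theorem NoHardPairF.toK {B : Oracle} (h : NoHardPairF B) : NoHardPairK B := by
  intro C D hCD
  obtain ⟨S, hS, h4⟩ := h C D hCD
  refine ⟨S, hS, fun k => ?_⟩
  obtain ⟨X, Y, hXY, hX, hY, ht, h5⟩ := h4 k
  refine ⟨X, Y, hXY, hX, hY, ht, fun P hP r hr N => ?_⟩
  refine h5 (P + Polynomial.C 1) P ?_ r hr (few_self C D P r) N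
  exact Polynomial.natDegree_add_C.le.trans hP

end Pool.Agent.J4H25.NPF
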