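import Pool.Agent.J4H25.NPF.Main

set_option autoImplicit false

/-!
# Few questions outside of the pair: few computations
-/

namespace Pool.Agent.J4H25.NPF

open Pool.Agent.NPC Pool.Agent.H628R3.RO Pool.Agent.J4H25.NPB Pool.Agent.J4H25.NPK

open Classical in
/-- the number of questions outside of `C ∪ D` -/
noncomputable def outN (C D : Set (List Bool)) (r : List Bool → List Bool) (S : List Bool → Bool)
    (x : List Bool) : ℕ → List Bool → ℕ
  | 0, _ => 0
  | j + 1, a => if (r (pairBits x a)).head? = some false then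
      (if (r (pairBits x a)).tail ∈ C ∪ D then 0 else 1) +
        outN C D r S x j (a ++ [S (r (pairBits x a)).tail]) else 0

theorem few_aux (C D : Set (List Bool)) (r : List Bool → List Bool) (x : List Bool) :
    ∀ (j : ℕ) (a : List Bool) (t : ℕ) (F : Set (List Bool → Bool)), (∀ S ∈ F, IsSep C D S) →
      (∀ S ∈ F, outN C D r S x j a ≤ t) →
      {b : List Bool | ∃ S ∈ F, ansL r S x j a = b}.Finite ∧
      {b : List Bool | ∃ S ∈ F, ansL r S x j a = b}.ncard ≤ 2 ^ t := by
  classical
  intro j
  induction j with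
  | zero =>
    intro a t F _ _
    have h1 : {b : List Bool | ∃ S ∈ F, ansL r S x 0 a = b} ⊆ {a} := by
      rintro b ⟨S, -, rfl⟩
      rfl
    refine ⟨(Set.finite_singleton a).subset h1, ?_⟩
    exact (Set.ncard_le_ncard h1 (Set.finite_singleton a)).trans
      ((Set.ncard_singleton a).le.trans Nat.one_le_two_pow)
  | succ j ih =>
    intro a t F hF ht
    by_cases hq : (r (pairBits x a)).head? = some false
    swap
    · have h1 : {b : List Bool | ∃ S ∈ F, ansL r S x (j + 1) a = b} ⊆ {a} := by
        rintro b ⟨S, -, rfl⟩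
        rw [ansL, if_neg hq]
        rfl
      refine ⟨(Set.finite_singleton a).subset h1, ?_⟩
      exact (Set.ncard_le_ncard h1 (Set.finite_singleton a)).trans
        ((Set.ncard_singleton a).le.trans Nat.one_le_two_pow)
    obtain ⟨q, hqq⟩ : ∃ q, q = (r (pairBits x a)).tail := ⟨_, rfl⟩
    -- the part with a given answer
    have part : ∀ (v : Bool) (s : ℕ), (∀ S ∈ F, S q = v → outN C D r S x j (a ++ [v]) ≤ s) →
        {b : List Bool | ∃ S ∈ F, S q = v ∧ ansL r S x (j + 1) a = b}.Finite ∧
        {b : List Bool | ∃ S ∈ F, S q = v ∧ ansL r S x (j + 1) a = b}.ncard ≤ 2 ^ s := by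
      intro v s hs
      have h1 := ih (a ++ [v]) s {S | S ∈ F ∧ S q = v} (fun S hS => hF S hS.1)
        (fun S hS => hs S hS.1 hS.2)
      have h2 : {b : List Bool | ∃ S ∈ F, S q = v ∧ ansL r S x (j + 1) a = b} =
          {b : List Bool | ∃ S ∈ {S | S ∈ F ∧ S q = v}, ansL r S x j (a ++ [v]) = b} := by
        ext b
        constructor
        · rintro ⟨S, hS, hv, hb⟩
          refine ⟨S, ⟨hS, hv⟩, ?_⟩
          rw [ansL, if_pos hq, ← hqq, hv] at hb
          exact hb
        · rintro ⟨S, ⟨hS, hv⟩, hb⟩
          refine ⟨S, hS, hv, ?_⟩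
          rw [ansL, if_pos hq, ← hqq, hv]
          exact hb
      rw [h2]
      exact h1
    have hsplit : {b : List Bool | ∃ S ∈ F, ansL r S x (j + 1) a = b} =
        {b : List Bool | ∃ S ∈ F, S q = true ∧ ansL r S x (j + 1) a = b} ∪
        {b : List Bool | ∃ S ∈ F, S q = false ∧ ansL r S x (j + 1) a = b} := by
      ext b
      constructor
      · rintro ⟨S, hS, hb⟩
        cases hv : S q with
        | true => exact Or.inl ⟨S, hS, hv, hb⟩
        | false => exact Or.inr ⟨S, hS, hv, hb⟩
      · rintro (⟨S, hS, -, hb⟩ | ⟨S, hS, -, hb⟩)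
        · exact ⟨S, hS, hb⟩
        · exact ⟨S, hS, hb⟩
    have hout : ∀ S ∈ F, (if q ∈ C ∪ D then 0 else 1) + outN C D r S x j (a ++ [S q]) ≤ t := by
      intro S hS
      have h1 := ht S hS
      rw [outN, if_pos hq, ← hqq] at h1
      exact h1
    by_cases hin : q ∈ C ∪ D
    · -- the answer is determined
      obtain ⟨v, hv⟩ : ∃ v : Bool, ∀ S ∈ F, S q = v := by
        rcases hin with h | h
        · exact ⟨true, fun S hS => (hF S hS).1 q h⟩
        · exact ⟨false, fun S hS => (hF S hS).2 q h⟩
      have h1 := part v t fun S hS hSv => by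
        have := hout S hS
        rw [if_pos hin, hSv] at this
        omega
      have h2 : {b : List Bool | ∃ S ∈ F, ansL r S x (j + 1) a = b} =
          {b : List Bool | ∃ S ∈ F, S q = v ∧ ansL r S x (j + 1) a = b} := by
        ext b
        exact ⟨fun ⟨S, hS, hb⟩ => ⟨S, hS, hv S hS, hb⟩, fun ⟨S, hS, _, hb⟩ => ⟨S, hS, hb⟩⟩
      rw [h2]
      exact h1
    · rcases Set.eq_empty_or_nonempty F with hE | ⟨S0, hS0⟩
      · rw [hE]
        simp
      obtain ⟨s, hs⟩ : ∃ s, t = s + 1 := by
        have := hout S0 hS0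
        rw [if_neg hin] at this
        exact ⟨t - 1, by omega⟩
      have h1 : ∀ v : Bool, _ := fun v => part v s fun S hS hSv => by
        have := hout S hS
        rw [if_neg hin, hSv] at this
        omega
      rw [hsplit]
      refine ⟨(h1 true).1.union (h1 false).1, (Set.ncard_union_le _ _).trans ?_⟩
      have e1 := (h1 true).2
      have e2 := (h1 false).2
      rw [hs, pow_succ]
      omega

/-- A procedure (with any number `Q(|x|)` of questions) with at most `P(|x|)` questions outside of
`C ∪ D`, for all separators of `(C, D)`, has at most `2 ^ P(|x|)` computations. -/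
theorem few_of_outside (C D : Set (List Bool)) (P Q : Polynomial ℕ) (r : List Bool → List Bool)
    (h : ∀ (x : List Bool) (S : List Bool → Bool), IsSep C D S →
      outN C D r S x (Q.eval x.length) [] ≤ P.eval x.length) : Few C D P Q r := by
  intro x
  exact (few_aux C D r x (Q.eval x.length) [] (P.eval x.length) {S | IsSep C D S}
    (fun S hS => hS) (fun S hS => h x S hS)).2

end Pool.Agent.J4H25.NPF
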